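import Pool.Agent.Q244.LK.Std

/-!
# Leopoldt relations with exponents in a given space come from finitely many number fields

A Leopoldt relation of a number field `K` is a family of multiplicatively independent units `ε_i` of `K`
and of `a_i ∈ ℂ_p`, not all zero, with `∑ a_i log_p (σ ε_i) = 0` for all embeddings `σ` of `K` into
`ℂ_p`; Leopoldt's conjecture for `K` and `p` says that there is none.  Let `A` be a subspace of `ℂ_p`, of
finite dimension over the field of algebraic numbers.  We consider the Leopoldt relations with exponents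
`a_i` in `A` of all number fields `K` at once.

(1) There is one number field `F ⊆ ℂ_p`, normal over `ℚ`, such that for every number field `K` and every
embedding `σ : K → ℂ_p`: if `∑ a_i log_p (σ ε_i) = 0` for units `ε_i` of `K` and exponents `a_i` in `A` which
are linearly independent over `ℚ` then a power of each `σ ε_i` lies in `F`.

(2) There is a finite set of number fields `M ≠ ℚ` such that the number fields `K` with a Leopoldt
relation with exponents in `A` are exactly the number fields which contain a subfield isomorphic to one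
of the fields `M`.  In particular, up to isomorphism only finitely many number fields without proper
subfields (for example of prime degree) have such a relation.

Proof.  By the `p`-adic hyperplane theorem (a case of the linear subgroup theorem) the relations with
coefficients in `A` between linear forms in logarithms form a finite dimensional space; with Brumer's
theorem all the logarithms `log_p (σ ε_i)` in (1) lie in one rational space of finite dimension.  (2) A
Leopoldt relation of `K` can be written with exponents linearly independent over `ℚ`; by (1) it is a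
relation of the subfield `σ⁻¹(F)` of `K`.
-/

set_option autoImplicit false

namespace Pool.Agent.Results.MP_5f2860_nt.FinitelyManyFields

open NumberField

variable {p : ℕ} [Fact p.Prime]

/-- `L` is Iwasawa's `p`-adic logarithm on `ℂ_p` (the value at `0` is irrelevant). -/
def IsIwasawaLog (p : ℕ) [Fact p.Prime] (L : ℂ_[p] → ℂ_[p]) : Prop :=
  (∀ x y : ℂ_[p], x ≠ 0 → y ≠ 0 → L (x * y) = L x + L y) ∧
  L ((p : ℕ) : ℂ_[p]) = 0 ∧
  ∀ z : ℂ_[p], ‖z‖ < 1 →
    HasSum (fun n : ℕ => (-1 : ℂ_[p]) ^ n * z ^ (n + 1) / ((n : ℂ_[p]) + 1)) (L (1 + z))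

/-- Subspaces of `ℂ_p` over the field of algebraic numbers. -/
abbrev Space (p : ℕ) [Fact p.Prime] : Type := Submodule (algebraicClosure ℚ ℂ_[p]) ℂ_[p]

/-- The logarithms of the units `ε_i` under the embedding `σ`. -/
noncomputable def logs (L : ℂ_[p] → ℂ_[p]) {K : Type} [Field K] (σ : K →+* ℂ_[p]) {n : ℕ}
    (ε : Fin n → (𝓞 K)ˣ) (i : Fin n) : ℂ_[p] :=
  L (σ ((ε i : 𝓞 K) : K))

/-- The `a_i` are linearly independent over `ℚ`. -/
def RatIndependent {n : ℕ} (a : Fin n → ℂ_[p]) : Prop :=
  ∀ w : Fin n → ℚ, ∑ i, (w i : ℂ_[p]) * a i = 0 → w = 0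

/-- `K` has a Leopoldt relation with exponents in `A`. -/
def HasRelation (L : ℂ_[p] → ℂ_[p]) (A : Space p) (K : Type) [Field K] [NumberField K] : Prop :=
  ∃ (n : ℕ) (ε : Fin n → (𝓞 K)ˣ) (a : Fin n → ℂ_[p]),
    (∀ m : Fin n → ℤ, ∏ i, ε i ^ m i = 1 → m = 0) ∧ (∀ i, a i ∈ A) ∧ a ≠ 0 ∧
    ∀ σ : K →+* ℂ_[p], ∑ i, a i * logs L σ ε i = 0

/-- (1), for the field `F`. -/
def PowersIn (L : ℂ_[p] → ℂ_[p]) (A : Space p) (F : IntermediateField ℚ ℂ_[p]) : Prop :=
  ∀ (n : ℕ) (K : Type) [Field K] [NumberField K] (σ : K →+* ℂ_[p]) (ε : Fin n → (𝓞 K)ˣ)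
    (a : Fin n → ℂ_[p]), (∀ i, a i ∈ A) → RatIndependent a → ∑ i, a i * logs L σ ε i = 0 →
    ∀ i, ∃ m : ℕ, 1 ≤ m ∧ σ ((ε i : 𝓞 K) : K) ^ m ∈ F

/-- The number fields with a relation are those which contain a copy of a field in `𝒦`. -/
def Generates (L : ℂ_[p] → ℂ_[p]) (A : Space p) (𝒦 : Set (IntermediateField ℚ ℂ_[p])) : Prop :=
  ∀ (K : Type) [Field K] [NumberField K], HasRelation L A K ↔ ∃ M ∈ 𝒦, Nonempty (M →+* K)

/-- A number field with a relation and without proper subfields is isomorphic to a field in `𝒦`. -/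
def ContainsSimple (L : ℂ_[p] → ℂ_[p]) (A : Space p) (𝒦 : Set (IntermediateField ℚ ℂ_[p])) : Prop :=
  ∀ (K : Type) [Field K] [NumberField K], (∀ K₀ : IntermediateField ℚ K, K₀ = ⊥ ∨ K₀ = ⊤) →
    HasRelation L A K → ∃ M ∈ 𝒦, Nonempty (M ≃+* K)

/-- **Main result.** -/
theorem result (p : ℕ) [Fact p.Prime] (L : ℂ_[p] → ℂ_[p]) (hL : IsIwasawaLog p L) (A : Space p)
    (hA : FiniteDimensional (algebraicClosure ℚ ℂ_[p]) A) :
    ∃ F : IntermediateField ℚ ℂ_[p], FiniteDimensional ℚ F ∧ Normal ℚ F ∧ PowersIn L A F ∧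
      ∃ 𝒦 : Set (IntermediateField ℚ ℂ_[p]), 𝒦.Finite ∧ (∀ M ∈ 𝒦, M ≤ F ∧ M ≠ ⊥) ∧
        Generates L A 𝒦 ∧ ContainsSimple L A 𝒦 := by
  obtain ⟨F, h1, h2, h3, 𝒦, h4, h5, h6⟩ :=
    Pool.Agent.Q244.LK.std_fields (L := L) ⟨hL.1, hL.2.1, hL.2.2⟩ A hA
  refine ⟨F, h1, h2, h3, 𝒦, h4, h5, h6, ?_⟩
  intro K _ _ hK hrel
  obtain ⟨M, hM, ⟨f⟩⟩ := (h6 K).1 hrel
  refine ⟨M, hM, ?_⟩
  rcases hK (RingHom.toRatAlgHom f).fieldRange with h7 | h7
  · exfalso
    apply (h5 M hM).2
    rw [← IntermediateField.finrank_eq_one_iff]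
    have e := AlgEquiv.ofInjectiveField (RingHom.toRatAlgHom f)
    have h8 := e.toLinearEquiv.finrank_eq
    rw [h8]
    have h9 : Module.finrank ℚ (RingHom.toRatAlgHom f).fieldRange = 1 := by
      rw [h7]
      exact IntermediateField.finrank_bot
    exact h9
  · have h8 : Function.Surjective f := by
      intro y
      have h9 : y ∈ (RingHom.toRatAlgHom f).fieldRange := by
        rw [h7]
        exact IntermediateField.mem_top
      obtain ⟨x, hx⟩ := h9
      exact ⟨x, hx⟩
    exact ⟨RingEquiv.ofBijective f ⟨f.injective, h8⟩⟩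

end Pool.Agent.Results.MP_5f2860_nt.FinitelyManyFields
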