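import Mathlib
import Pool.Agent.Q22.LE.Fin

set_option autoImplicit false

/-! # Lower bounds for the number of fields which satisfy Leopoldt's conjecture

Let `n ≥ 3`.  (1) For every finite set `S` of primes, with product `P`, and all `X ≥ (C P)^(n(n-1))`
there are at least `c X^(1/n) / (P^(n-1) (log X)^((n-1)²))` pairwise non-isomorphic totally real fields
of degree `n`, not Galois over `ℚ`, with discriminant at most `X`, which satisfy Leopoldt's conjecture
at all `p ∈ S`.  The constants `c, C > 0` depend only on `n`.  (2) For every `ε > 0` there is `δ > 0`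
such that for all large `X` there are at least `X^(1/n - ε)` such fields which satisfy Leopoldt's
conjecture at ALL primes `p ≤ δ log X` simultaneously.

A totally real field which is not Galois is contained in no extension of `ℚ` which is abelian over
`ℚ` or over an imaginary quadratic field, so that no such field is covered by the theorem of Ax and
Brumer.

Proof. The fields are `ℚ(θ)`, `∏ (θ - a_i) = 1`, with `a_0 = 0` and `a_i` divisible by the given primes
(Leopoldt's conjecture holds for all of them by the starting hand-in ExplicitUnits).  The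
`θ - a_i` are units with conjugates at most `2 T + 1` if `|a_i| ≤ T`; as a field of degree `n` has at
most `C (log T)^(n-1)` such units, uniformly in the field, it arises from at most
`(C (log T)^(n-1))^(n-1)` tuples. -/

namespace Pool.Agent.Results.MP_5f2860_nt.ManyFields

open NumberField Filter Topology

/-- Leopoldt's conjecture for the number field `K` and the prime `p`: units of `K` congruent to `1`
at all primes above `p` which are multiplicatively independent over `ℤ` stay independent over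
`ℤ_p` in the product of the completions above `p`. -/
def Leopoldt (K : Type) [Field K] [NumberField K] (p : ℕ) [Fact p.Prime] : Prop :=
  ∀ (n : ℕ) (ε : Fin n → (𝓞 K)ˣ),
    (∀ i, ((ε i : 𝓞 K) - 1) ∈ (Ideal.span {((p : ℕ) : 𝓞 K)}).radical) →
    (∀ c : Fin n → ℤ, ∏ i, ε i ^ c i = 1 → c = 0) →
    ∀ (a : Fin n → PadicInt p) (m : ℕ → Fin n → ℤ),
      (∀ i, Tendsto (fun k => ((m k i : ℤ) : PadicInt p)) atTop (𝓝 (a i))) →
      (∀ N : ℕ, ∀ᶠ k in atTop,
        ((p : ℕ) : 𝓞 K) ^ N ∣ (((∏ i, ε i ^ m k i : (𝓞 K)ˣ) : 𝓞 K) - 1)) →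
      a = 0

/-- There are at least `N` pairwise non-isomorphic totally real fields of degree `n`, not Galois
over `ℚ`, with discriminant of absolute value at most `X`, which satisfy Leopoldt's conjecture at all
primes of the set `S`. -/
def AtLeast (n : ℕ) (X : ℝ) (S : Set ℕ) (N : ℝ) : Prop :=
  ∃ (q : ℕ) (K : Fin q → Type) (_ : ∀ i, Field (K i)) (_ : ∀ i, NumberField (K i)),
    N ≤ q ∧ (∀ i j, i ≠ j → IsEmpty (K i ≃+* K j)) ∧
    ∀ i, Module.finrank ℚ (K i) = n ∧ IsTotallyReal (K i) ∧ ¬ IsGalois ℚ (K i) ∧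
      |(discr (K i) : ℝ)| ≤ X ∧ ∀ p ∈ S, ∀ [Fact p.Prime], Leopoldt (K i) p

theorem result (n : ℕ) (hn : 3 ≤ n) :
    (∃ c C : ℝ, 0 < c ∧ 0 < C ∧ ∀ S : Finset ℕ, (∀ p ∈ S, p.Prime) →
      ∀ X : ℝ, (C * ∏ p ∈ S, (p : ℝ)) ^ (n * (n - 1)) ≤ X →
        AtLeast n X S (c * X ^ ((1 : ℝ) / n) /
          ((∏ p ∈ S, (p : ℝ)) ^ (n - 1) * Real.log X ^ ((n - 1) ^ 2)))) ∧
    (∀ ε : ℝ, 0 < ε → ∃ δ : ℝ, 0 < δ ∧ ∃ X₀ : ℝ, ∀ X : ℝ, X₀ ≤ X →
      AtLeast n X {p | p.Prime ∧ (p : ℝ) ≤ δ * Real.log X} (X ^ ((1 : ℝ) / n - ε))) := by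
  obtain ⟨m, rfl⟩ : ∃ m, n = m + 1 := ⟨n - 1, by omega⟩
  rw [Nat.add_sub_cancel]
  refine ⟨?_, fun ε hε => ?_⟩
  · obtain ⟨c, C, hc, hC, h⟩ := Pool.Agent.Q22.LE.part1 m (by omega)
    exact ⟨c, C, hc, by linarith, h⟩
  · exact Pool.Agent.Q22.LE.part2 m (by omega) ε hε

end Pool.Agent.Results.MP_5f2860_nt.ManyFields
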