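import Pool.Agent.Q244.TD.Fields

/-!
# Leopoldt relations with exponents in a given space over independent number fields

A Leopoldt relation of a number field `K` is a family of multiplicatively independent units `ε_i` of `K`
and of `a_i ∈ ℂ_p`, not all zero, with `∑ a_i log_p (σ ε_i) = 0` for all embeddings `σ` of `K` into
`ℂ_p`; Leopoldt's conjecture for `K` and `p` says that there is none.  Let `A` be a subspace of `ℂ_p` of
finite dimension `m` over the field of algebraic numbers.

(1) Let `K_1, K_2, …` be number fields embedded in `ℂ_p` such that `K_k` meets the compositum of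
`K_1, …, K_(k-1)` in `ℚ` for all `k`.  If over `K_k` there are `r_k` linearly independent relations
`∑ a_i log ε_i = 0` (for the given embedding only) with exponents in `A` between multiplicatively
independent units, then `∑ r_k ≤ m (m - 1)`, and `∑ r_k ≤ (4 D) ^ n - 2 ^ n` if `A` consists of values of
polynomials of degree at most `D` in each of `n` numbers.

(2) Among number fields whose degrees are pairwise coprime at most `m (m - 1)` have a Leopoldt relation
with exponents in `A`.

(3) For all primes `ℓ` with at most `m (m - 1)` exceptions no number field of degree `ℓ` has a Leopoldt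
relation with exponents in `A`.

Proof.  The units of independent fields are multiplicatively independent, so the relations of the
different fields are independent relations between linearly independent logarithms, whose number is
bounded by the `p`-adic hyperplane theorem (a case of the linear subgroup theorem).
-/

set_option autoImplicit false

namespace Pool.Agent.Results.MP_5f2860_nt.TotalDimension

open NumberField Module
open Pool.Agent.W332.SL7 (Bounds)

/-- `L` is Iwasawa's `p`-adic logarithm on `ℂ_p` (the value at `0` is irrelevant). -/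
def IsIwasawaLog (p : ℕ) [Fact p.Prime] (L : ℂ_[p] → ℂ_[p]) : Prop :=
  (∀ x y : ℂ_[p], x ≠ 0 → y ≠ 0 → L (x * y) = L x + L y) ∧
  L ((p : ℕ) : ℂ_[p]) = 0 ∧
  ∀ z : ℂ_[p], ‖z‖ < 1 →
    HasSum (fun n : ℕ => (-1 : ℂ_[p]) ^ n * z ^ (n + 1) / ((n : ℂ_[p]) + 1)) (L (1 + z))

/-- Subspaces of `ℂ_p` over the field of algebraic numbers. -/
abbrev Space (p : ℕ) [Fact p.Prime] : Type := Submodule (algebraicClosure ℚ ℂ_[p]) ℂ_[p]

/-- The image of an embedding. -/
noncomputable def image {p : ℕ} [Fact p.Prime] {K : Type} [Field K] [NumberField K]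
    (σ : K →+* ℂ_[p]) : IntermediateField ℚ ℂ_[p] :=
  (RingHom.toRatAlgHom σ).fieldRange

variable {p : ℕ} [Fact p.Prime] (L : ℂ_[p] → ℂ_[p]) (A : Space p)

/-- `K` has a Leopoldt relation with exponents in `A`. -/
def HasRelation (K : Type) [Field K] [NumberField K] : Prop :=
  ∃ (n : ℕ) (ε : Fin n → (𝓞 K)ˣ) (a : Fin n → ℂ_[p]),
    (∀ m : Fin n → ℤ, ∏ i, ε i ^ m i = 1 → m = 0) ∧ (∀ i, a i ∈ A) ∧ a ≠ 0 ∧
    ∀ σ : K →+* ℂ_[p], ∑ i, a i * L (σ ((ε i : 𝓞 K) : K)) = 0

/-- `d` is the degree of a number field which has a Leopoldt relation with exponents in `A`. -/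
def IsDegree (d : ℕ) : Prop :=
  ∃ (K : Type) (_ : Field K) (_ : NumberField K), finrank ℚ K = d ∧ HasRelation L A K

/-- With respect to the embedding `σ`, between some multiplicatively independent units of `K` there are
`r` linearly independent relations with exponents in `A`. -/
def RelationsAt (K : Type) [Field K] [NumberField K] (σ : K →+* ℂ_[p]) (r : ℕ) : Prop :=
  ∃ (n : ℕ) (ε : Fin n → (𝓞 K)ˣ) (a : Fin r → Fin n → ℂ_[p]),
    (∀ m : Fin n → ℤ, ∏ i, ε i ^ m i = 1 → m = 0) ∧ (∀ l i, a l i ∈ A) ∧
    LinearIndependent ℂ_[p] a ∧ ∀ l, ∑ i, a l i * L (σ ((ε i : 𝓞 K) : K)) = 0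

/-- The image of each embedding meets the compositum of the preceding ones in `ℚ`. -/
def Independent {M : ℕ} (K : Fin M → Type) [∀ k, Field (K k)] [∀ k, NumberField (K k)]
    (σ : (k : Fin M) → K k →+* ℂ_[p]) : Prop :=
  ∀ k, image (σ k) ⊓ (Finset.univ.filter (fun j => j < k)).sup (fun j => image (σ j)) = ⊥

/-- (1) The bounds hold for the total number of relations over independent fields. -/
def IndependentFields : Prop :=
  ∀ (M : ℕ) (K : Fin M → Type) [∀ k, Field (K k)] [∀ k, NumberField (K k)]
    (σ : (k : Fin M) → K k →+* ℂ_[p]), Independent K σ →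
    ∀ r : Fin M → ℕ, (∀ k, RelationsAt L A (K k) (σ k) (r k)) → Bounds A (∑ k, r k)

/-- (2) The bounds hold for the number of fields of pairwise coprime degrees with a relation. -/
def CoprimeFields : Prop :=
  ∀ (M : ℕ) (K : Fin M → Type) [∀ k, Field (K k)] [∀ k, NumberField (K k)],
    (∀ j k, j ≠ k → (finrank ℚ (K j)).Coprime (finrank ℚ (K k))) →
    (∀ k, HasRelation L A (K k)) → Bounds A M

/-- The dimension of `A` over the field of algebraic numbers. -/
noncomputable def dim : ℕ := finrank (algebraicClosure ℚ ℂ_[p]) A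

/-- **Main result.** -/
theorem result (p : ℕ) [Fact p.Prime] (L : ℂ_[p] → ℂ_[p]) (hL : IsIwasawaLog p L) (A : Space p)
    (hA : FiniteDimensional (algebraicClosure ℚ ℂ_[p]) A) :
    IndependentFields L A ∧ CoprimeFields L A ∧
    -- (3) pairwise coprime degrees, in particular prime degrees
    (∀ S : Set ℕ, (∀ d ∈ S, IsDegree L A d) → S.Pairwise Nat.Coprime →
      S.Finite ∧ S.ncard ≤ dim A * (dim A - 1) ∧ Bounds A S.ncard) ∧
    {ℓ : ℕ | ℓ.Prime ∧ IsDegree L A ℓ}.Finite ∧
    {ℓ : ℕ | ℓ.Prime ∧ IsDegree L A ℓ}.ncard ≤ dim A * (dim A - 1) ∧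
    Bounds A {ℓ : ℕ | ℓ.Prime ∧ IsDegree L A ℓ}.ncard := by
  classical
  have hL' : Pool.Agent.W289.SL.IsIwasawaLog p L := ⟨hL.1, hL.2.1, hL.2.2⟩
  have h2 : ∀ (M : ℕ) (K : Fin M → Type) [∀ k, Field (K k)] [∀ k, NumberField (K k)],
      (∀ j k, j ≠ k → (finrank ℚ (K j)).Coprime (finrank ℚ (K k))) →
      (∀ k, HasRelation L A (K k)) → Bounds A M := by
    intro M K _ _ hco hrel
    choose n ε a hε ha hne h0 using hrel
    have hσ : ∀ k, Nonempty (K k →+* ℂ_[p]) := fun k => inferInstance
    let σ : (k : Fin M) → K k →+* ℂ_[p] := fun k => Classical.choice (hσ k)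
    have h := Pool.Agent.Q244.TD.bounds_fields K hL' A hA σ
      (Pool.Agent.Q244.TD.tower_of_coprime K σ hco) n (fun _ => 1) ε hε (fun k _ => a k)
      (fun k _ i => ha k i) (fun k => ?_) (fun k _ => h0 k (σ k))
    · simpa using h
    · rw [linearIndependent_unique_iff]
      exact hne k
  have h3 : ∀ S : Set ℕ, (∀ d ∈ S, IsDegree L A d) → S.Pairwise Nat.Coprime →
      S.Finite ∧ Bounds A S.ncard := by
    intro S hS hco
    have key : ∀ T : Finset ℕ, (T : Set ℕ) ⊆ S → Bounds A T.card := by
      intro T hT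
      have h : ∀ k : Fin T.card, IsDegree L A (T.equivFin.symm k) := fun k =>
        hS _ (hT (T.equivFin.symm k).2)
      choose K iF iN hd hrel using h
      refine h2 T.card K ?_ hrel
      intro j k hjk
      rw [hd, hd]
      exact hco (hT (T.equivFin.symm j).2) (hT (T.equivFin.symm k).2)
        fun h => hjk (T.equivFin.symm.injective (Subtype.ext h))
    have hfin : S.Finite := by
      by_contra hinf
      obtain ⟨T, hT, hc⟩ := Set.Infinite.exists_subset_card_eq (s := S) hinf
        (Pool.Agent.W332.SL7.dimQ A * (Pool.Agent.W332.SL7.dimQ A - 1) + 1)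
      have := (key T hT).dim
      omega
    refine ⟨hfin, ?_⟩
    rw [Set.ncard_eq_toFinset_card S hfin]
    exact key _ (by simp)
  refine ⟨?_, fun M K _ _ hco hrel => h2 M K hco hrel,
    fun S h1 h4 => ⟨(h3 S h1 h4).1, (h3 S h1 h4).2.dim, (h3 S h1 h4).2⟩, ?_⟩
  · intro M K _ _ σ hσ r hrel
    choose n ε a hε ha hli h0 using hrel
    exact Pool.Agent.Q244.TD.bounds_fields K hL' A hA σ hσ n r ε hε a ha hli h0
  · have h5 := h3 {ℓ : ℕ | ℓ.Prime ∧ IsDegree L A ℓ} (fun ℓ hℓ => hℓ.2)
      (fun ℓ hℓ ℓ' hℓ' hne => (Nat.coprime_primes hℓ.1 hℓ'.1).2 hne)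
    exact ⟨h5.1, h5.2.dim, h5.2⟩

end Pool.Agent.Results.MP_5f2860_nt.TotalDimension
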